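import Mathlib

/-!
# Confluent minors

If all the determinants `det [r_j(x_i)]` with increasing `x_i` are nonnegative, then so are the
Wronskians `det [r_j^{(i)}(x)]`.
-/

set_option autoImplicit false

open scoped BigOperators ContDiff
open Finset Matrix Filter Topology

namespace Pool.Agent.Q296.PolyaFreq

/-- The `n`-th forward difference is `ε^n` times the `n`-th derivative at an intermediate
point. -/
theorem fwdDiff_iter_mean (n : ℕ) : ∀ (r : ℝ → ℝ) (_ : ContDiff ℝ ∞ r) (ε : ℝ) (_ : 0 < ε) (x : ℝ),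
    ∃ ξ, x ≤ ξ ∧ ξ ≤ x + n * ε ∧ (fwdDiff ε)^[n] r x = ε ^ n * iteratedDeriv n r ξ := by
  induction n with
  | zero =>
    intro r hr ε hε x
    exact ⟨x, le_rfl, by simp, by simp⟩
  | succ n ih =>
    intro r hr ε hε x
    have hr2 : ContDiff ℝ ∞ (fun z => r (z + ε)) := hr.comp (contDiff_id.add contDiff_const)
    have hd : fwdDiff ε r = fun z => r (z + ε) - r z := rfl
    have hc : ContDiff ℝ ∞ (fwdDiff ε r) := by
      rw [hd]; exact hr2.sub hr
    obtain ⟨ξ, h1, h2, h3⟩ := ih (fwdDiff ε r) hc ε hε x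
    have h4 : iteratedDeriv n (fwdDiff ε r) ξ
        = iteratedDeriv n r (ξ + ε) - iteratedDeriv n r ξ := by
      rw [hd, iteratedDeriv_fun_sub (hr2.contDiffAt.of_le (by exact_mod_cast le_top))
        (hr.contDiffAt.of_le (by exact_mod_cast le_top)), iteratedDeriv_comp_add_const]
    have hdiff : Differentiable ℝ (iteratedDeriv n r) :=
      hr.differentiable_iteratedDeriv n (by exact_mod_cast WithTop.coe_lt_top _)
    obtain ⟨c, hc1, hc2⟩ := exists_deriv_eq_slope (iteratedDeriv n r)
      (show ξ < ξ + ε by linarith) hdiff.continuous.continuousOn hdiff.differentiableOn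
    refine ⟨c, by linarith [hc1.1], ?_, ?_⟩
    · push_cast
      nlinarith [hc1.2]
    · rw [Function.iterate_succ_apply, h3, h4, iteratedDeriv_succ, hc2]
      have : ξ + ε - ξ = ε := by ring
      rw [this]
      field_simp
      ring

/-- Divided forward differences converge to the derivative. -/
theorem tendsto_fwdDiff (n : ℕ) (r : ℝ → ℝ) (hr : ContDiff ℝ ∞ r) (x : ℝ) :
    Tendsto (fun ε : ℝ => ε⁻¹ ^ n * (fwdDiff ε)^[n] r x) (𝓝[>] 0)
      (𝓝 (iteratedDeriv n r x)) := by
  have hcont : Continuous (iteratedDeriv n r) :=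
    hr.continuous_iteratedDeriv n (by exact_mod_cast le_top)
  have hch : ∀ ε : ℝ, ∃ ξ, 0 < ε → (x ≤ ξ ∧ ξ ≤ x + n * ε ∧
      (fwdDiff ε)^[n] r x = ε ^ n * iteratedDeriv n r ξ) := by
    intro ε
    by_cases h : 0 < ε
    · obtain ⟨ξ, h1⟩ := fwdDiff_iter_mean n r hr ε h x
      exact ⟨ξ, fun _ => h1⟩
    · exact ⟨0, fun h' => absurd h' h⟩
  choose ξ hξ using hch
  have hlim : Tendsto ξ (𝓝[>] (0 : ℝ)) (𝓝 x) := by
    have h1 : Tendsto (fun ε : ℝ => x + n * ε) (𝓝[>] 0) (𝓝 x) := by
      have : Tendsto (fun ε : ℝ => x + n * ε) (𝓝 0) (𝓝 (x + n * 0)) :=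
        ((continuous_const.add (continuous_const.mul continuous_id)).tendsto 0)
      simp only [mul_zero, add_zero] at this
      exact this.mono_left nhdsWithin_le_nhds
    refine tendsto_of_tendsto_of_tendsto_of_le_of_le' tendsto_const_nhds h1 ?_ ?_
    · filter_upwards [self_mem_nhdsWithin] with ε hε
      exact (hξ ε hε).1
    · filter_upwards [self_mem_nhdsWithin] with ε hε
      exact (hξ ε hε).2.1
  refine ((hcont.tendsto x).comp hlim).congr' ?_
  filter_upwards [self_mem_nhdsWithin] with ε hε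
  have hε' : (0 : ℝ) < ε := hε
  simp only [Function.comp]
  rw [(hξ ε hε').2.2, ← mul_assoc, ← mul_pow, inv_mul_cancel₀ hε'.ne', one_pow, one_mul]

/-- The matrix of the forward difference operator. -/
def diffMat (N : ℕ) : Matrix (Fin N) (Fin N) ℝ :=
  Matrix.of fun i a => (-1) ^ ((i : ℕ) - a) * ((i : ℕ).choose a : ℝ)

theorem det_diffMat (N : ℕ) : (diffMat N).det = 1 := by
  rw [Matrix.det_of_isLowerTriangular]
  · simp [diffMat]
  · intro i j hij
    have : i < j := by simpa using hij
    simp only [diffMat, Matrix.of_apply]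
    rw [Nat.choose_eq_zero_of_lt (by exact_mod_cast this)]
    simp

/-- **Confluence.** -/
theorem confluent {N : ℕ} (r : Fin N → ℝ → ℝ) (hr : ∀ j, ContDiff ℝ ∞ (r j))
    (hdet : ∀ x : Fin N → ℝ, StrictMono x → 0 ≤ (Matrix.of fun i j => r j (x i)).det) (x : ℝ) :
    0 ≤ (Matrix.of fun i j : Fin N => iteratedDeriv i (r j) x).det := by
  have hlim : Tendsto (fun ε : ℝ => (Matrix.of fun i j : Fin N =>
      ε⁻¹ ^ (i : ℕ) * (fwdDiff ε)^[(i : ℕ)] (r j) x).det) (𝓝[>] 0)
      (𝓝 (Matrix.of fun i j : Fin N => iteratedDeriv i (r j) x).det) := by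
    have hcd : Continuous (fun M : Matrix (Fin N) (Fin N) ℝ => M.det) :=
      Continuous.matrix_det continuous_id
    refine (hcd.tendsto _).comp ?_
    refine tendsto_pi_nhds.2 fun i => ?_
    refine tendsto_pi_nhds.2 fun j => ?_
    exact tendsto_fwdDiff i (r j) (hr j) x
  refine ge_of_tendsto hlim ?_
  filter_upwards [self_mem_nhdsWithin] with ε hε
  have hε' : (0 : ℝ) < ε := hε
  have hfac : (Matrix.of fun i j : Fin N =>
      ε⁻¹ ^ (i : ℕ) * (fwdDiff ε)^[(i : ℕ)] (r j) x)
      = Matrix.diagonal (fun i : Fin N => ε⁻¹ ^ (i : ℕ)) *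
        (diffMat N * (Matrix.of fun i j : Fin N => r j (x + (i : ℕ) * ε))) := by
    ext i j
    rw [Matrix.diagonal_mul, Matrix.mul_apply]
    simp only [Matrix.of_apply, diffMat]
    congr 1
    rw [fwdDiff_iter_eq_sum_shift]
    rw [← Fin.sum_univ_eq_sum_range (fun k => ((-1 : ℤ) ^ ((i : ℕ) - k) * ((i : ℕ).choose k : ℤ)) •
      r j (x + k • ε)) ((i : ℕ) + 1)]
    rw [Fin.sum_univ_eq_sum_range (fun k => ((-1 : ℤ) ^ ((i : ℕ) - k) * ((i : ℕ).choose k : ℤ)) •
      r j (x + k • ε)) ((i : ℕ) + 1)]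
    rw [Fin.sum_univ_eq_sum_range (fun k => (-1 : ℝ) ^ ((i : ℕ) - k) * ((i : ℕ).choose k : ℝ) *
      r j (x + (k : ℕ) * ε)) N]
    have hsub : range ((i : ℕ) + 1) ⊆ range N := by
      intro k hk
      rw [mem_range] at hk ⊢
      have := i.isLt
      omega
    rw [← Finset.sum_subset hsub]
    · refine Finset.sum_congr rfl fun k _ => ?_
      rw [zsmul_eq_mul, nsmul_eq_mul]
      push_cast
      ring
    · intro k _ hk
      rw [mem_range, not_lt] at hk
      rw [Nat.choose_eq_zero_of_lt (by omega)]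
      simp
  rw [hfac, Matrix.det_mul, Matrix.det_mul, det_diffMat, one_mul, Matrix.det_diagonal]
  refine mul_nonneg (Finset.prod_nonneg fun i _ => by positivity) ?_
  refine hdet (fun i => x + (i : ℕ) * ε) ?_
  intro a b hab
  have : ((a : ℕ) : ℝ) < ((b : ℕ) : ℝ) := by exact_mod_cast hab
  simp only
  nlinarith

/-- **Confluence in both variables.** -/
theorem confluent_twice {N : ℕ} (f : ℝ → ℝ) (hf : ContDiff ℝ ∞ f)
    (hdet : ∀ x y : Fin N → ℝ, StrictMono x → StrictMono y →
      0 ≤ (Matrix.of fun i j => f (x i - y j)).det) (z : ℝ) :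
    0 ≤ (Matrix.of fun i j : Fin N => (-1 : ℝ) ^ (j : ℕ) * iteratedDeriv (i + j) f z).det := by
  have h1 : ∀ y : Fin N → ℝ, StrictMono y →
      0 ≤ (Matrix.of fun i j : Fin N => iteratedDeriv i f (z - y j)).det := by
    intro y hy
    have h := confluent (fun j u => f (u - y j))
      (fun j => hf.comp (contDiff_id.sub contDiff_const)) (fun x hx => hdet x y hx hy) z
    have he : (Matrix.of fun i j : Fin N => iteratedDeriv i (fun u => f (u - y j)) z)
        = (Matrix.of fun i j : Fin N => iteratedDeriv i f (z - y j)) := by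
      ext i j
      simp only [Matrix.of_apply]
      rw [iteratedDeriv_comp_sub_const]
    rwa [he] at h
  have hsm : ∀ j : ℕ, ContDiff ℝ ∞ (iteratedDeriv j f) := by
    intro j
    induction j with
    | zero => simpa using hf
    | succ j ih =>
      rw [iteratedDeriv_succ]
      exact (contDiff_infty_iff_deriv.1 ih).2
  have h2 := confluent (fun (j : Fin N) u => iteratedDeriv j f (z - u))
    (fun j => (hsm j).comp (contDiff_const.sub contDiff_id))
    (fun y hy => by
      have := h1 y hy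
      rw [← Matrix.det_transpose] at this
      exact this) 0
  rw [← Matrix.det_transpose]
  have he : (Matrix.of fun i j : Fin N => (-1 : ℝ) ^ (j : ℕ) * iteratedDeriv (i + j) f z)ᵀ
      = (Matrix.of fun i j : Fin N => iteratedDeriv i (fun u => iteratedDeriv j f (z - u)) 0) := by
    ext i j
    simp only [Matrix.of_apply, Matrix.transpose_apply]
    rw [iteratedDeriv_comp_const_sub]
    simp only [smul_eq_mul, sub_zero]
    congr 1
    have : ∀ a b : ℕ, iteratedDeriv a (iteratedDeriv b f) = iteratedDeriv (a + b) f := by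
      intro a b
      simp only [iteratedDeriv_eq_iterate, Function.iterate_add_apply]
    rw [this, add_comm]
  rw [he]
  exact h2

end Pool.Agent.Q296.PolyaFreq
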