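import Pool.Agent.Q296.PolyaFreq.Confluent
import Pool.Agent.Q296.PolyaFreq.Table

/-!
# The Gaussian half-factor is not a Pólya frequency function of order 12
-/

set_option autoImplicit false

open scoped BigOperators ContDiff
open Finset Matrix Filter Topology

namespace Pool.Agent.Q296.PolyaFreq

/-- The function of the problem: `(2/π)^{1/4} exp (π²/12 + z - ∫_0^{e^z} log(1+t)/t dt)`. -/
noncomputable def g (z : ℝ) : ℝ :=
  (2 / Real.pi) ^ (1 / 4 : ℝ) *
    Real.exp (Real.pi ^ 2 / 12 + z - ∫ t in (0 : ℝ)..Real.exp z, Real.log (1 + t) / t)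

/-! ### The Hankel determinant -/

theorem hankel_neg : (Matrix.of fun i j : Fin 12 => M ((i : ℕ) + j)).det < 0 := by
  set H : Matrix (Fin 12) (Fin 12) ℤ := Matrix.of fun i j : Fin 12 => M ((i : ℕ) + j) with hH
  set A : Matrix (Fin 12) (Fin 12) ℤ := Matrix.of fun i k : Fin 12 => T i k with hA
  have hAH : ∀ i j : Fin 12, j ≤ i → (A * H) i j = if j = i then U i else 0 := by
    intro i j hji
    rw [Matrix.mul_apply]
    have h := T_M i (mem_range.2 i.isLt) j (mem_range.2 (by
      have : (j : ℕ) ≤ i := hji
      omega))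
    rw [← Fin.sum_univ_eq_sum_range (fun k => T i k * M (k + j)) 12] at h
    simp only [hA, hH, Matrix.of_apply]
    rw [h]
    simp [Fin.ext_iff]
  have hdA : A.det = ∏ i : Fin 12, T i i := by
    rw [Matrix.det_of_isLowerTriangular]
    · simp [hA]
    · intro i j hij
      have : i < j := by simpa using hij
      exact T_upper i (mem_range.2 i.isLt) j (mem_range.2 j.isLt) this
  have hdAH : (A * H).det = ∏ i : Fin 12, U i := by
    rw [Matrix.det_of_isUpperTriangular]
    · refine Finset.prod_congr rfl fun i _ => ?_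
      rw [hAH i i le_rfl, if_pos rfl]
    · intro i j hij
      have hlt : j < i := by simpa using hij
      rw [hAH i j hlt.le, if_neg hlt.ne]
  have hpos : 0 < A.det := by
    rw [hdA]
    exact Finset.prod_pos fun i _ => T_diag i (mem_range.2 i.isLt)
  have hneg : (A * H).det < 0 := by
    rw [hdAH, Fin.prod_univ_eq_prod_range (fun i => U i) 12]
    exact U_prod
  rw [Matrix.det_mul] at hneg
  by_contra hcon
  push Not at hcon
  have := mul_nonneg hpos.le hcon
  linarith

/-! ### Derivatives -/

/-- The base point. -/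
noncomputable def z0 : ℝ := Real.log (10 / 3)

/-- The logistic function. -/
noncomputable def s (z : ℝ) : ℝ := Real.exp z / (1 + Real.exp z)

/-- The logarithmic derivative of the tilted function. -/
noncomputable def lam (z : ℝ) : ℝ := Real.log (13 / 3) - Real.log (1 + Real.exp z)

/-- The tilted function. -/
noncomputable def f (z : ℝ) : ℝ := Real.exp (-(1 - Real.log (13 / 3)) * z) * g z

theorem exp_pos' (z : ℝ) : 0 < 1 + Real.exp z := by positivity

theorem s_smooth : ContDiff ℝ ∞ s := by
  unfold s
  exact Real.contDiff_exp.div (contDiff_const.add Real.contDiff_exp) fun z => (exp_pos' z).ne'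

theorem lam_smooth : ContDiff ℝ ∞ lam := by
  unfold lam
  exact contDiff_const.sub ((contDiff_const.add Real.contDiff_exp).log fun z => (exp_pos' z).ne')

theorem deriv_s : deriv s = fun z => s z - s z * s z := by
  funext z
  have h1 : HasDerivAt (fun z : ℝ => 1 + Real.exp z) (Real.exp z) z :=
    (Real.hasDerivAt_exp z).const_add 1
  have h2 := (Real.hasDerivAt_exp z).div h1 (exp_pos' z).ne'
  have h3 : deriv s z = _ := h2.deriv
  rw [h3]
  unfold s
  have := (exp_pos' z).ne'
  field_simp

theorem deriv_lam : deriv lam = fun z => - s z := by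
  funext z
  have h1 : HasDerivAt (fun z : ℝ => 1 + Real.exp z) (Real.exp z) z :=
    (Real.hasDerivAt_exp z).const_add 1
  have h2 := (h1.log (exp_pos' z).ne').const_sub (Real.log (13 / 3))
  have h3 : deriv lam z = _ := h2.deriv
  rw [h3]
  rfl

theorem hasDerivAt_int (z : ℝ) :
    HasDerivAt (fun z => ∫ t in (0 : ℝ)..Real.exp z, Real.log (1 + t) / t)
      (Real.log (1 + Real.exp z)) z := by
  have hmeas : Measurable (fun t : ℝ => Real.log (1 + t) / t) :=
    (Real.measurable_log.comp (measurable_const.add measurable_id)).div measurable_id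
  have hint : IntervalIntegrable (fun t : ℝ => Real.log (1 + t) / t) MeasureTheory.volume 0
      (Real.exp z) := by
    rw [intervalIntegrable_iff_integrableOn_Ioc_of_le (Real.exp_pos z).le]
    refine MeasureTheory.Measure.integrableOn_of_bounded (M := 1) (by simp)
      hmeas.aestronglyMeasurable ?_
    refine (MeasureTheory.ae_restrict_iff' measurableSet_Ioc).2 (Filter.Eventually.of_forall ?_)
    intro t ht
    have h0 : 0 < t := ht.1
    rw [Real.norm_eq_abs, abs_of_nonneg (div_nonneg (Real.log_nonneg (by linarith)) h0.le)]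
    rw [div_le_one h0]
    have := Real.log_le_sub_one_of_pos (show (0 : ℝ) < 1 + t by linarith)
    linarith
  have hcont : ContinuousAt (fun t : ℝ => Real.log (1 + t) / t) (Real.exp z) := by
    refine ContinuousAt.div ?_ continuousAt_id (Real.exp_pos z).ne'
    exact (continuousAt_const.add continuousAt_id).log (exp_pos' z).ne'
  have h1 := intervalIntegral.integral_hasDerivAt_right hint
    (hmeas.stronglyMeasurable.stronglyMeasurableAtFilter) hcont
  have h2 := h1.comp z (Real.hasDerivAt_exp z)
  refine h2.congr_deriv ?_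
  have := (Real.exp_pos z).ne'
  field_simp

theorem hasDerivAt_f (z : ℝ) : HasDerivAt f (f z * lam z) z := by
  have h1 : HasDerivAt (fun z => Real.pi ^ 2 / 12 + z -
      ∫ t in (0 : ℝ)..Real.exp z, Real.log (1 + t) / t) (1 - Real.log (1 + Real.exp z)) z := by
    have := ((hasDerivAt_id z).const_add (Real.pi ^ 2 / 12)).sub (hasDerivAt_int z)
    exact this
  have h2 := (h1.exp).const_mul ((2 / Real.pi) ^ (1 / 4 : ℝ))
  have h3 : HasDerivAt (fun z : ℝ => Real.exp (-(1 - Real.log (13 / 3)) * z))
      (Real.exp (-(1 - Real.log (13 / 3)) * z) * (-(1 - Real.log (13 / 3)) * 1)) z :=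
    ((hasDerivAt_id z).const_mul _).exp
  have h4 := h3.mul h2
  refine h4.congr_deriv ?_
  unfold f lam g
  ring

theorem deriv_f : deriv f = fun z => f z * lam z := by
  funext z
  exact (hasDerivAt_f z).deriv

theorem f_smooth : ContDiff ℝ ∞ f := by
  have hnat : ∀ n : ℕ, ContDiff ℝ n f := by
    intro n
    induction n with
    | zero =>
      rw [Nat.cast_zero, contDiff_zero]
      exact continuous_iff_continuousAt.2 fun z => (hasDerivAt_f z).continuousAt
    | succ n ih =>
      rw [Nat.cast_succ, contDiff_succ_iff_deriv]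
      refine ⟨fun z => (hasDerivAt_f z).differentiableAt, by simp, ?_⟩
      rw [deriv_f]
      exact ih.mul (lam_smooth.of_le (by exact_mod_cast le_top))
  exact contDiff_infty.2 hnat

theorem s_z0 : s z0 = 10 / 13 := by
  unfold s z0
  rw [Real.exp_log (by norm_num)]
  norm_num

theorem lam_z0 : lam z0 = 0 := by
  unfold lam z0
  rw [Real.exp_log (by norm_num)]
  norm_num

theorem ofle {h : ℝ → ℝ} (hh : ContDiff ℝ ∞ h) (n : ℕ) (z : ℝ) : ContDiffAt ℝ n h z :=
  hh.contDiffAt.of_le (by exact_mod_cast le_top)

/-- The derivatives of the logistic function at the base point. -/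
theorem iter_s : ∀ k : ℕ, k < 22 → iteratedDeriv k s z0 = S k / 13 ^ (k + 1) := by
  intro k
  induction k using Nat.strong_induction_on with
  | _ k ih =>
    intro hk
    rcases k with _ | k
    · simp only [iteratedDeriv_zero]
      rw [s_z0]
      norm_num [S, Sl]
    · rw [iteratedDeriv_succ', deriv_s,
        iteratedDeriv_fun_sub (ofle s_smooth k z0) (ofle (s_smooth.mul s_smooth) k z0),
        iteratedDeriv_fun_mul (ofle s_smooth k z0) (ofle s_smooth k z0),
        ih k (by omega) (by omega), S_rec k (mem_range.2 (by omega))]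
      have hsum : ∑ i ∈ range (k + 1), (k.choose i : ℝ) * iteratedDeriv i s z0 *
          iteratedDeriv (k - i) s z0
          = (∑ j ∈ range (k + 1), (k.choose j : ℝ) * S j * S (k - j)) / 13 ^ (k + 2) := by
        rw [Finset.sum_div]
        refine Finset.sum_congr rfl fun i hi => ?_
        have hi' : i ≤ k := by
          have := mem_range.1 hi
          omega
        rw [ih i (by omega) (by omega), ih (k - i) (by omega) (by omega)]
        have hp : (13 : ℝ) ^ (k + 2) = 13 ^ (i + 1) * 13 ^ (k - i + 1) := by
          rw [← pow_add]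
          congr 1
          omega
        rw [hp]
        field_simp
      rw [hsum]
      push_cast
      rw [pow_succ (13 : ℝ) (k + 1)]
      field_simp

/-- The derivatives of the logarithmic derivative at the base point. -/
theorem iter_lam : ∀ k : ℕ, k < 23 → iteratedDeriv k lam z0 = Lam k / 13 ^ k := by
  intro k hk
  rcases k with _ | k
  · simp only [iteratedDeriv_zero]
    rw [lam_z0]
    simp [Lam]
  · rw [iteratedDeriv_succ', deriv_lam, iteratedDeriv_fun_neg, iter_s k (by omega)]
    simp only [Lam]
    push_cast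
    ring

/-- The derivatives of the tilted function at the base point. -/
theorem iter_f : ∀ n : ℕ, n < 23 → iteratedDeriv n f z0 = f z0 * (M n / 13 ^ n) := by
  intro n
  induction n using Nat.strong_induction_on with
  | _ n ih =>
    intro hn
    rcases n with _ | n
    · simp only [iteratedDeriv_zero]
      norm_num [M, Ml]
    · rw [iteratedDeriv_succ', deriv_f,
        iteratedDeriv_fun_mul (ofle f_smooth n z0) (ofle lam_smooth n z0),
        M_rec n (mem_range.2 (by omega))]
      have hsum : ∑ i ∈ range (n + 1), (n.choose i : ℝ) * iteratedDeriv i f z0 *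
          iteratedDeriv (n - i) lam z0
          = f z0 * ((∑ i ∈ range (n + 1), (n.choose i : ℝ) * M i * Lam (n - i)) / 13 ^ n) := by
        rw [Finset.sum_div, Finset.mul_sum]
        refine Finset.sum_congr rfl fun i hi => ?_
        have hi' : i ≤ n := by
          have := mem_range.1 hi
          omega
        rw [ih i (by omega) (by omega), iter_lam (n - i) (by omega)]
        have hp : (13 : ℝ) ^ n = 13 ^ i * 13 ^ (n - i) := by
          rw [← pow_add]
          congr 1
          omega
        rw [hp]
        field_simp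
      rw [hsum]
      push_cast
      rw [pow_succ (13 : ℝ) n]
      field_simp

theorem f_pos (z : ℝ) : 0 < f z := by
  unfold f g
  have : 0 < 2 / Real.pi := by positivity
  positivity

/-- The confluent determinant is negative. -/
theorem conf_neg : (Matrix.of fun i j : Fin 12 =>
    (-1 : ℝ) ^ (j : ℕ) * iteratedDeriv (i + j) f z0).det < 0 := by
  have hfac : (Matrix.of fun i j : Fin 12 => (-1 : ℝ) ^ (j : ℕ) * iteratedDeriv (i + j) f z0)
      = Matrix.diagonal (fun i : Fin 12 => f z0 * (13⁻¹ : ℝ) ^ (i : ℕ)) *
        ((Matrix.of fun i j : Fin 12 => M ((i : ℕ) + j)).map (Int.cast : ℤ → ℝ)) *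
        Matrix.diagonal (fun j : Fin 12 => (-1 : ℝ) ^ (j : ℕ) * (13⁻¹ : ℝ) ^ (j : ℕ)) := by
    ext i j
    rw [Matrix.mul_diagonal, Matrix.diagonal_mul]
    simp only [Matrix.of_apply, Matrix.map_apply]
    rw [iter_f _ (by have := i.isLt; have := j.isLt; omega), pow_add]
    simp only [inv_pow]
    field_simp
  have hcast : ((Matrix.of fun i j : Fin 12 => M ((i : ℕ) + j)).map (Int.cast : ℤ → ℝ)).det
      = (((Matrix.of fun i j : Fin 12 => M ((i : ℕ) + j)).det : ℤ) : ℝ) := by
    have := (RingHom.map_det (Int.castRingHom ℝ) (Matrix.of fun i j : Fin 12 => M ((i : ℕ) + j)))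
    simpa using this.symm
  have hn : (((Matrix.of fun i j : Fin 12 => M ((i : ℕ) + j)).det : ℤ) : ℝ) < 0 := by
    exact_mod_cast hankel_neg
  have hsgn : ∏ j : Fin 12, ((-1 : ℝ) ^ (j : ℕ) * (13⁻¹ : ℝ) ^ (j : ℕ)) > 0 := by
    rw [Finset.prod_mul_distrib]
    have h1 : ∏ j : Fin 12, (-1 : ℝ) ^ (j : ℕ) = 1 := by
      simp [Fin.prod_univ_succ]
      norm_num
    rw [h1, one_mul]
    exact Finset.prod_pos fun j _ => by positivity
  have hd1 : 0 < ∏ i : Fin 12, (f z0 * (13⁻¹ : ℝ) ^ (i : ℕ)) :=
    Finset.prod_pos fun i _ => mul_pos (f_pos z0) (by positivity)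
  rw [hfac, Matrix.det_mul, Matrix.det_mul, Matrix.det_diagonal, Matrix.det_diagonal, hcast]
  exact mul_neg_of_neg_of_pos (mul_neg_of_pos_of_neg hd1 hn) hsgn

/-- **`g` has a negative minor of order `12`.** -/
theorem exists_neg_minor : ∃ x y : Fin 12 → ℝ, StrictMono x ∧ StrictMono y ∧
    (Matrix.of fun i j => g (x i - y j)).det < 0 := by
  by_contra hcon
  push Not at hcon
  have hc := confluent_twice f f_smooth (fun x y hx hy => ?_) z0 (N := 12)
  · exact absurd hc (not_le.2 conf_neg)
  · have h := hcon x y hx hy
    have hfac : (Matrix.of fun i j : Fin 12 => f (x i - y j))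
        = Matrix.diagonal (fun i : Fin 12 => Real.exp (-(1 - Real.log (13 / 3)) * x i)) *
          (Matrix.of fun i j : Fin 12 => g (x i - y j)) *
          Matrix.diagonal (fun j : Fin 12 => Real.exp ((1 - Real.log (13 / 3)) * y j)) := by
      ext i j
      rw [Matrix.mul_diagonal, Matrix.diagonal_mul]
      simp only [Matrix.of_apply, f]
      have : Real.exp (-(1 - Real.log (13 / 3)) * (x i - y j))
          = Real.exp (-(1 - Real.log (13 / 3)) * x i) *
            Real.exp ((1 - Real.log (13 / 3)) * y j) := by
        rw [← Real.exp_add]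
        congr 1
        ring
      rw [this]
      ring
    rw [hfac, Matrix.det_mul, Matrix.det_mul, Matrix.det_diagonal, Matrix.det_diagonal]
    exact mul_nonneg (mul_nonneg (Finset.prod_nonneg fun i _ => (Real.exp_pos _).le) h)
      (Finset.prod_nonneg fun i _ => (Real.exp_pos _).le)

end Pool.Agent.Q296.PolyaFreq
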